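import Mathlib

/-!
# Sums of products of `q - 1` linear forms over subspaces and over the holes of a partial spread
-/

set_option autoImplicit false

open Module

namespace Pool.Agent.H75.PS

/-- the product of `q - 1` linear forms sums to `0` over a space of dimension at least `2` -/
theorem sum_prod_eq_zero {F : Type*} [Field F] [Fintype F] {W : Type*} [AddCommGroup W]
    [Module F W] [Fintype W] (hW : 2 ≤ finrank F W) {ι : Type*} (s : Finset ι)
    (hs : s.card ≤ Fintype.card F - 1) (φ : ι → W →ₗ[F] F) :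
    ∑ v : W, ∏ i ∈ s, φ i v = 0 := by
  classical
  have : Module.Finite F W := Module.Finite.of_finite
  let b := Module.finBasis F W
  let p : MvPolynomial (Fin (finrank F W)) F :=
    ∏ i ∈ s, ∑ j, MvPolynomial.C (φ i (b j)) * MvPolynomial.X j
  have hq : 1 < Fintype.card F := Fintype.one_lt_card
  have hdeg : p.totalDegree < (Fintype.card F - 1) * Fintype.card (Fin (finrank F W)) := by
    have h1 : p.totalDegree ≤ s.card := by
      refine (MvPolynomial.totalDegree_finsetProd _ _).trans ?_
      calc ∑ i ∈ s, (∑ j, MvPolynomial.C (φ i (b j)) * MvPolynomial.X j :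
              MvPolynomial (Fin (finrank F W)) F).totalDegree
            ≤ ∑ _i ∈ s, 1 := by
              refine Finset.sum_le_sum fun i _ => ?_
              refine MvPolynomial.totalDegree_finsetSum_le fun j _ => ?_
              refine (MvPolynomial.totalDegree_mul _ _).trans ?_
              rw [MvPolynomial.totalDegree_C, MvPolynomial.totalDegree_X]
        _ = s.card := by simp
    rw [Fintype.card_fin]
    have h2 : (Fintype.card F - 1) * 2 ≤ (Fintype.card F - 1) * finrank F W :=
      Nat.mul_le_mul_left _ hW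
    omega
  have h0 := MvPolynomial.sum_eval_eq_zero p hdeg
  have h1 : ∀ x : Fin (finrank F W) → F, MvPolynomial.eval x p = ∏ i ∈ s, φ i (b.equivFun.symm x) := by
    intro x
    rw [map_prod]
    refine Finset.prod_congr rfl fun i _ => ?_
    rw [map_sum, b.equivFun_symm_apply, map_sum]
    refine Finset.sum_congr rfl fun j _ => ?_
    rw [map_mul, MvPolynomial.eval_C, MvPolynomial.eval_X, map_smul, smul_eq_mul, mul_comm]
  rw [← h0]
  refine (Fintype.sum_equiv b.equivFun.symm.toEquiv _ _ fun x => ?_).symm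
  rw [h1]
  rfl

/-- the product of `q - 1 ≥ 1` linear forms sums to `0` over the hole vectors of a partial spread -/
theorem sum_holes {F : Type*} [Field F] [Fintype F] [DecidableEq F]
    (S : Finset (Submodule F (Fin 4 → F)))
    (h2 : ∀ W ∈ S, finrank F W = 2) (hd : ∀ W ∈ S, ∀ W' ∈ S, W ≠ W' → W ⊓ W' = ⊥)
    (φ : Fin (Fintype.card F - 1) → (Fin 4 → F) →ₗ[F] F) (H : Finset (Fin 4 → F))
    (hH : ∀ v, v ∈ H ↔ v ≠ 0 ∧ ∀ W ∈ S, v ∉ W) :
    ∑ v ∈ H, ∏ i, φ i v = 0 := by
  classical
  have hq : 1 < Fintype.card F := Fintype.one_lt_card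
  have hz : ∏ i, φ i (0 : Fin 4 → F) = 0 := by
    refine Finset.prod_eq_zero (Finset.mem_univ ⟨0, by omega⟩) ?_
    rw [map_zero]
  have hall : ∑ v : Fin 4 → F, ∏ i, φ i v = 0 := by
    refine sum_prod_eq_zero (by simp) Finset.univ ?_ φ
    simp
  have hline : ∀ W ∈ S, ∑ v ∈ Finset.univ.filter (fun v => v ∈ W ∧ v ≠ 0), ∏ i, φ i v = 0 := by
    intro W hW
    have h3 : ∑ v : W, ∏ i, φ i (v : Fin 4 → F) = 0 :=
      sum_prod_eq_zero (h2 W hW).ge Finset.univ (by simp) fun i => (φ i).comp W.subtype
    have h4 : ∑ v ∈ Finset.univ.filter (fun v => v ∈ W), ∏ i, φ i v = 0 := by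
      rw [← h3]
      exact Finset.sum_subtype _ (fun v => by simp) _
    rw [← h4]
    refine Finset.sum_subset (fun v hv => ?_) fun v hv hv' => ?_
    · rw [Finset.mem_filter] at hv ⊢
      exact ⟨hv.1, hv.2.1⟩
    · rw [Finset.mem_filter] at hv
      have : v = 0 := by
        by_contra h0
        exact hv' (by rw [Finset.mem_filter]; exact ⟨hv.1, hv.2, h0⟩)
      rw [this, hz]
  have hsplit : (Finset.univ : Finset (Fin 4 → F)) = H ∪ ({0} ∪
      S.biUnion fun W => Finset.univ.filter (fun v => v ∈ W ∧ v ≠ 0)) := by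
    ext v
    simp only [Finset.mem_univ, Finset.mem_union, Finset.mem_singleton, Finset.mem_biUnion,
      Finset.mem_filter, true_and, true_iff, hH]
    by_cases h0 : v = 0
    · exact Or.inr (Or.inl h0)
    · by_cases h1 : ∃ W ∈ S, v ∈ W
      · obtain ⟨W, hW, hv⟩ := h1
        exact Or.inr (Or.inr ⟨W, hW, hv, h0⟩)
      · push Not at h1
        exact Or.inl ⟨h0, h1⟩
  rw [hsplit, Finset.sum_union, Finset.sum_union, Finset.sum_singleton, hz, zero_add,
    Finset.sum_biUnion] at hall
  · rw [Finset.sum_congr rfl hline, Finset.sum_const_zero, add_zero] at hall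
    exact hall
  · intro W hW W' hW' hne
    rw [Function.onFun, Finset.disjoint_left]
    intro v hv hv'
    rw [Finset.mem_filter] at hv hv'
    have h5 : v ∈ W ⊓ W' := ⟨hv.2.1, hv'.2.1⟩
    rw [hd W hW W' hW' hne, Submodule.mem_bot] at h5
    exact hv.2.2 h5
  · rw [Finset.disjoint_left]
    intro v hv hv'
    rw [Finset.mem_singleton] at hv
    rw [Finset.mem_biUnion] at hv'
    obtain ⟨W, _, hW⟩ := hv'
    rw [Finset.mem_filter] at hW
    exact hW.2.2 hv
  · rw [Finset.disjoint_left]
    intro v hv hv'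
    rw [hH] at hv
    rw [Finset.mem_union, Finset.mem_singleton, Finset.mem_biUnion] at hv'
    rcases hv' with h6 | ⟨W, hW, h6⟩
    · exact hv.1 h6
    · rw [Finset.mem_filter] at h6
      exact hv.2 W hW h6.2.1

end Pool.Agent.H75.PS
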